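import Pool.Agent.W273.Z.Ell

/-!
The Hall–Lang conjecture for all integral points `(x, y)` for which `√x` has a rational
approximation `a / b` that is better than the trivial one by a factor `|x| ^ ε`.

Every integer `x ≥ 1` has `|x - a²| ≤ |x| ^ (1/2)` for some integer `a`, and more generally
(Dirichlet) approximations with `|b² x - a²| ≤ 3 |x| ^ (1/2)` of every size of `b`. The theorem
assumes `|b² x - a²| ≤ |x| ^ (1/2 - ε)` for one pair `a, b` with `1 ≤ b ≤ |x| ^ (1/2 - ε)`, or, if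
`B ≠ 0`, with `1 ≤ b ≤ |x| ^ (1 - ε)`.
-/

set_option autoImplicit false

namespace Pool.Agent.Results.MP_a1107e_nt.ApproximableSqrt

theorem result :
    ∀ ε : ℝ, 0 < ε → ∃ K M : ℝ, 0 < K ∧ 0 < M ∧ ∀ A B x y : ℤ,
      4 * A ^ 3 + 27 * B ^ 2 ≠ 0 → y ^ 2 = x ^ 3 + A * x + B →
      (∃ a b : ℤ, 1 ≤ b ∧
        ((b : ℝ) ≤ |(x : ℝ)| ^ (1 / 2 - ε) ∨ (B ≠ 0 ∧ (b : ℝ) ≤ |(x : ℝ)| ^ (1 - ε))) ∧
        |(b : ℝ) ^ 2 * x - (a : ℝ) ^ 2| ≤ |(x : ℝ)| ^ (1 / 2 - ε)) →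
      max |(x : ℝ)| |(y : ℝ)| ≤ K * (max |(A : ℝ)| |(B : ℝ)|) ^ M :=
  Pool.Agent.W273.Z.ell

end Pool.Agent.Results.MP_a1107e_nt.ApproximableSqrt
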