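import Pool.Agent.W257.HL.A4
import Pool.Agent.W395.HL.Lin
import Pool.Agent.W864.HL.Quad
import Pool.Agent.W554.HL.RED

/-!
The Hall-Lang conjecture, with an absolute exponent, for all integral points of all curves
`y ^ 2 = x ^ 3 + A x + B` whose real halves are defined over a fixed real number field.
-/

set_option autoImplicit false

namespace Pool.Agent.Results.MP_a1107e_nt.HalvesInFixedField

open Pool.Agent.W257.HL

/-- from the halves of the point to the roots of the quartic -/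
lemma halves (K : IntermediateField ℚ ℝ) {A B x y : ℤ} (hD : 4 * A ^ 3 + 27 * B ^ 2 ≠ 0)
    (hE : y ^ 2 = x ^ 3 + A * x + B)
    (h : ∀ X Y l : ℝ, Y ^ 2 = X ^ 3 + A * X + B → 2 * Y * l = 3 * X ^ 2 + A →
      l ^ 2 - 2 * X = x → l * (X - x) - Y = y → X ∈ K ∧ Y ∈ K) :
    ∀ l : ℝ, l ^ 4 - 6 * x * l ^ 2 + 8 * y * l - (3 * x ^ 2 + 4 * A) = 0 → l ∈ K := by
  intro l hl
  have hER : (y : ℝ) ^ 2 = x ^ 3 + A * x + B := by exact_mod_cast hE
  obtain ⟨X, hX⟩ : ∃ X : ℝ, X = (l ^ 2 - x) / 2 := ⟨_, rfl⟩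
  obtain ⟨Y, hY⟩ : ∃ Y : ℝ, Y = -l * (X - x) - y := ⟨_, rfl⟩
  have e1 : Y ^ 2 = X ^ 3 + A * X + B := by
    rw [hY, hX]
    linear_combination (((l ^ 2 - x) / 2 - x) / 4) * hl + hER
  have e2 : 2 * Y * (-l) = 3 * X ^ 2 + A := by
    rw [hY, hX]
    linear_combination (1 / 4) * hl
  have e3 : (-l) ^ 2 - 2 * X = x := by
    rw [hX]
    ring
  have e4 : (-l) * (X - x) - Y = y := by
    rw [hY]
    ring
  obtain ⟨k1, k2⟩ := h X Y (-l) e1 e2 e3 e4
  have hY0 : Y ≠ 0 := by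
    intro h0
    rw [h0] at e1 e2
    apply hD
    have hA : (A : ℝ) = -3 * X ^ 2 := by linear_combination -e2
    have hB : (B : ℝ) = 2 * X ^ 3 := by
      rw [hA] at e1
      linear_combination -e1
    have h5 : (4 * (A : ℝ) ^ 3 + 27 * (B : ℝ) ^ 2) = 0 := by
      rw [hA, hB]
      ring
    exact_mod_cast h5
  have h6 : l = -((3 * X ^ 2 + A) / (2 * Y)) := by
    rw [← e2]
    field_simp
  rw [h6]
  have h3 : (3 : ℝ) ∈ K := by exact_mod_cast intCast_mem K 3
  have h2 : (2 : ℝ) ∈ K := by exact_mod_cast intCast_mem K 2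
  exact K.neg_mem (K.div_mem (K.add_mem (K.mul_mem h3 (pow_mem k1 2)) (intCast_mem K A))
    (K.mul_mem h2 k2))

/-- For every real number field `K` there is a constant `c` such that every integral point
`(x, y)` of every curve `y ^ 2 = x ^ 3 + A x + B` (`A`, `B` integers, nonsingular), all of whose
real halves `(X, Y)` (real points with `2 (X, Y) = (x, y)`; `l` is the slope of the tangent at
`(X, Y)`) have coordinates in `K`, satisfies
`max |x| |y| ≤ c * (max |A| |B|) ^ (10 ^ 12 * 8 ^ 43)`. -/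
theorem result (K : IntermediateField ℚ ℝ) (hK : FiniteDimensional ℚ K) :
    ∃ c : ℕ, ∀ A B x y : ℤ, 4 * A ^ 3 + 27 * B ^ 2 ≠ 0 → y ^ 2 = x ^ 3 + A * x + B →
      (∀ X Y l : ℝ, Y ^ 2 = X ^ 3 + A * X + B → 2 * Y * l = 3 * X ^ 2 + A →
        l ^ 2 - 2 * X = x → l * (X - x) - Y = y → X ∈ K ∧ Y ∈ K) →
      max x.natAbs y.natAbs ≤ c * (max A.natAbs B.natAbs) ^ (10 ^ 12 * 8 ^ 43) := by
  obtain ⟨c, hc⟩ := main_a Pool.Agent.W554.HL.t_RED Pool.Agent.W395.HL.lin
    Pool.Agent.W864.HL.quad K hK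
  exact ⟨c, fun A B x y hD hE h => hc A B x y hD hE (halves K hD hE h)⟩

end Pool.Agent.Results.MP_a1107e_nt.HalvesInFixedField
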