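import Pool.Agent.W257.HL.A5
import Pool.Agent.W257.HL.RED2
import Pool.Agent.W395.HL.Lin
import Pool.Agent.W864.HL.Quad

/-!
The Hall-Lang conjecture: repulsion, with absolute constants, between integral points of different
curves whose real halves are defined over the same field.
-/

set_option autoImplicit false

open IntermediateField

namespace Pool.Agent.Results.MP_a1107e_nt.RepulsionOfHalves

open Pool.Agent.W257.HL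

/-- from the halves of the point to the roots of the quartic -/
lemma halves (K : IntermediateField ℚ ℝ) {A B x y : ℤ} (hD : 4 * A ^ 3 + 27 * B ^ 2 ≠ 0)
    (hE : y ^ 2 = x ^ 3 + A * x + B)
    (h : ∀ X Y l : ℝ, Y ^ 2 = X ^ 3 + A * X + B → 2 * Y * l = 3 * X ^ 2 + A →
      l ^ 2 - 2 * X = x → l * (X - x) - Y = y → X ∈ K ∧ Y ∈ K) :
    ∀ l : ℝ, l ^ 4 - 6 * x * l ^ 2 + 8 * y * l - (3 * x ^ 2 + 4 * A) = 0 → l ∈ K := by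
  intro l hl
  have hER : (y : ℝ) ^ 2 = x ^ 3 + A * x + B := by exact_mod_cast hE
  obtain ⟨X, hX⟩ : ∃ X : ℝ, X = (l ^ 2 - x) / 2 := ⟨_, rfl⟩
  obtain ⟨Y, hY⟩ : ∃ Y : ℝ, Y = -l * (X - x) - y := ⟨_, rfl⟩
  have e1 : Y ^ 2 = X ^ 3 + A * X + B := by
    rw [hY, hX]
    linear_combination (((l ^ 2 - x) / 2 - x) / 4) * hl + hER
  have e2 : 2 * Y * (-l) = 3 * X ^ 2 + A := by
    rw [hY, hX]
    linear_combination (1 / 4) * hl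
  have e3 : (-l) ^ 2 - 2 * X = x := by
    rw [hX]
    ring
  have e4 : (-l) * (X - x) - Y = y := by
    rw [hY]
    ring
  obtain ⟨k1, k2⟩ := h X Y (-l) e1 e2 e3 e4
  have hY0 : Y ≠ 0 := by
    intro h0
    rw [h0] at e1 e2
    apply hD
    have hA : (A : ℝ) = -3 * X ^ 2 := by linear_combination -e2
    have hB : (B : ℝ) = 2 * X ^ 3 := by
      rw [hA] at e1
      linear_combination -e1
    have h5 : (4 * (A : ℝ) ^ 3 + 27 * (B : ℝ) ^ 2) = 0 := by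
      rw [hA, hB]
      ring
    exact_mod_cast h5
  have h6 : l = -((3 * X ^ 2 + A) / (2 * Y)) := by
    rw [← e2]
    field_simp
  rw [h6]
  have h3 : (3 : ℝ) ∈ K := by exact_mod_cast intCast_mem K 3
  have h2 : (2 : ℝ) ∈ K := by exact_mod_cast intCast_mem K 2
  exact K.neg_mem (K.div_mem (K.add_mem (K.mul_mem h3 (pow_mem k1 2)) (intCast_mem K A))
    (K.mul_mem h2 k2))

/-- There is an absolute constant `C` such that, with `M = 10 ^ 12 * 8 ^ 43`, every integral point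
`P₁ = (x₁, y₁)` of a curve `y ^ 2 = x ^ 3 + A₁ x + B₁` with `|x₁| > (C max |A₁| |B₁|) ^ M` has a real
half `Q₁ = (X₁, Y₁)` (`2 Q₁ = P₁`, tangent slope `l₁`) such that every integral point `(x, y)` of every
curve `y ^ 2 = x ^ 3 + A x + B`, all of whose real halves are defined over `ℚ(Q₁)`, satisfies
`max |x| |y| ≤ (C |x₁| max |A| |B|) ^ M`. -/
theorem result : ∃ C : ℕ, ∀ A₁ B₁ x₁ y₁ : ℤ, 4 * A₁ ^ 3 + 27 * B₁ ^ 2 ≠ 0 →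
    y₁ ^ 2 = x₁ ^ 3 + A₁ * x₁ + B₁ →
    (C * max A₁.natAbs B₁.natAbs) ^ (10 ^ 12 * 8 ^ 43) < x₁.natAbs →
    ∃ X₁ Y₁ l₁ : ℝ, Y₁ ^ 2 = X₁ ^ 3 + A₁ * X₁ + B₁ ∧ 2 * Y₁ * l₁ = 3 * X₁ ^ 2 + A₁ ∧
      l₁ ^ 2 - 2 * X₁ = x₁ ∧ l₁ * (X₁ - x₁) - Y₁ = y₁ ∧
      ∀ A B x y : ℤ, 4 * A ^ 3 + 27 * B ^ 2 ≠ 0 → y ^ 2 = x ^ 3 + A * x + B →
        (∀ X Y l : ℝ, Y ^ 2 = X ^ 3 + A * X + B → 2 * Y * l = 3 * X ^ 2 + A →
          l ^ 2 - 2 * X = x → l * (X - x) - Y = y →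
          X ∈ IntermediateField.adjoin ℚ {X₁, Y₁} ∧ Y ∈ IntermediateField.adjoin ℚ {X₁, Y₁}) →
        max x.natAbs y.natAbs
          ≤ (C * x₁.natAbs * max A.natAbs B.natAbs) ^ (10 ^ 12 * 8 ^ 43) := by
  obtain ⟨C, hC⟩ := main_b t_RED2 Pool.Agent.W395.HL.lin Pool.Agent.W864.HL.quad
  refine ⟨C, ?_⟩
  intro A₁ B₁ x₁ y₁ hD₁ hE₁ hbig
  obtain ⟨l, hl, hmain⟩ := hC A₁ B₁ x₁ y₁ hD₁ hE₁ hbig
  have hER : (y₁ : ℝ) ^ 2 = x₁ ^ 3 + A₁ * x₁ + B₁ := by exact_mod_cast hE₁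
  obtain ⟨X, hX⟩ : ∃ X : ℝ, X = (l ^ 2 - x₁) / 2 := ⟨_, rfl⟩
  obtain ⟨Y, hY⟩ : ∃ Y : ℝ, Y = -l * (X - x₁) - y₁ := ⟨_, rfl⟩
  have hl2 := mem_adjoin_simple_self ℚ l
  have h2 : (2 : ℝ) ∈ ℚ⟮l⟯ := by exact_mod_cast intCast_mem ℚ⟮l⟯ 2
  have k1 : X ∈ ℚ⟮l⟯ := by
    rw [hX]
    exact (ℚ⟮l⟯).div_mem ((ℚ⟮l⟯).sub_mem (pow_mem hl2 2) (intCast_mem _ x₁)) h2
  have k2 : Y ∈ ℚ⟮l⟯ := by
    rw [hY]
    exact (ℚ⟮l⟯).sub_mem ((ℚ⟮l⟯).mul_mem ((ℚ⟮l⟯).neg_mem hl2)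
      ((ℚ⟮l⟯).sub_mem k1 (intCast_mem _ x₁))) (intCast_mem _ y₁)
  have hle : IntermediateField.adjoin ℚ {X, Y} ≤ ℚ⟮l⟯ := by
    rw [IntermediateField.adjoin_le_iff]
    intro z hz
    rcases hz with rfl | hz
    · exact k1
    · rw [Set.mem_singleton_iff.1 hz]
      exact k2
  refine ⟨X, Y, -l, ?_, ?_, ?_, ?_, ?_⟩
  · rw [hY, hX]
    linear_combination (((l ^ 2 - x₁) / 2 - x₁) / 4) * hl + hER
  · rw [hY, hX]
    linear_combination (1 / 4) * hl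
  · rw [hX]
    ring
  · rw [hY]
    ring
  · intro A B x y hD hE h
    exact hmain A B x y hD hE (halves ℚ⟮l⟯ hD hE (fun X' Y' l' e1 e2 e3 e4 =>
      ⟨hle (h X' Y' l' e1 e2 e3 e4).1, hle (h X' Y' l' e1 e2 e3 e4).2⟩))

end Pool.Agent.Results.MP_a1107e_nt.RepulsionOfHalves
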